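import Pool.Agent.N133.Big
import Pool.Agent.N145.SX.Fin

/-!
Project GQ: the conjecture of Campana and Peternell if the Kodaira dimension is at least `dim - 1` or
the canonical class is not pseudo-effective.
-/

set_option autoImplicit false
set_option linter.overlappingInstances false
set_option linter.unusedSectionVars false

open FF Pool.Agent.W602.GT Pool.Agent.W603.LV

namespace Pool.Agent.N162.GQ

section

variable {K : Type} [Field K] [Algebra ℂ K]

/-- `κ(A) ≥ h` for the divisor `A` on the smooth projective varieties of dimension `w` with the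
function field `K` and their blow-ups, which has the multiplicity `a v` along each prime divisor `v`
over them: some multiple `m A`, `m ≥ 1`, has sections `f_0 ≠ 0, ..., f_h` such that the `h` ratios
`f_i / f_0` are algebraically independent. -/
def DivKodGe (K : Type) [Field K] [Algebra ℂ K] (w : ℕ) (a : Place ℂ K → ℤ) (h : ℕ) : Prop :=
  ∃ m : ℕ, 1 ≤ m ∧ ∃ f : Fin (h + 1) → K, f 0 ≠ 0 ∧
    (∀ l, ∀ v : Place ℂ K, Divisorial w v → f l = 0 ∨ -(m * a v) ≤ v.ord (f l)) ∧
    AlgebraicIndependent ℂ (fun i : Fin h => f i.succ / f 0)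

/-- `r K_X - A` is pseudo-effective: there is a divisor `H` (generated by a finite set `S` of
functions) such that for all `j ≥ 1` the divisor `j (r K_X - A) + H` has a nonzero section: a
`j r`-fold pluricanonical form whose values on the vector fields which are regular along `v` have order
at least `j (a v) + v(s)`, for some `s ∈ S`. -/
def PsefRest (K : Type) [Field K] [Algebra ℂ K] (w r : ℕ) (a : Place ℂ K → ℤ) : Prop :=
  ∃ S : Finset K, ∀ j : ℕ, 1 ≤ j → ∃ β : (Fin w → Derivation ℂ K K) → K,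
    IsPluri (j * r) β ∧ (∃ D, β D ≠ 0) ∧
    ∀ v : Place ℂ K, Divisorial w v → ∀ D : Fin w → Derivation ℂ K K, (∀ i, DerReg v (D i)) →
      β D = 0 ∨ ∃ s ∈ S, s ≠ 0 ∧ j * a v + v.ord s ≤ v.ord (β D)

/-- `K` is pseudo-effective -/
theorem psef_of_rest {w r : ℕ} (hr : 1 ≤ r) {a : Place ℂ K → ℤ} (h : PsefRest K w r a)
    (hA : DivKodGe K w a 0) : Psef ℂ K w (fun _ => False) := by
  classical
  obtain ⟨S, hS⟩ := h
  obtain ⟨m, hm, f, hf0, hf, -⟩ := hA
  refine ⟨insert 1 S, fun N => ?_⟩
  rcases Nat.eq_zero_or_pos N with rfl | hN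
  · refine ⟨1, one_pos, fun _ => 1, ⟨fun A D => by simp, fun P _ D _ => ?_, fun P _ _ D _ => ?_⟩,
      fun _ => 0, one_ne_zero⟩
    · exact Or.inr ⟨1, Finset.mem_insert_self _ _, one_ne_zero, by simp⟩
    · exact Or.inr ⟨1, Finset.mem_insert_self _ _, one_ne_zero, by simp⟩
  · obtain ⟨β, h1, ⟨D0, hD0⟩, h2⟩ := hS (N * m) (Nat.mul_pos hN hm)
    have h3 : ∀ P : Place ℂ K, Divisorial w P → ∀ D : Fin w → Derivation ℂ K K,
        (∀ i, DerReg P (D i)) → TwReg P (insert 1 S) (m * r) (f 0 ^ N * β D) := by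
      intro P hP D hD
      rcases h2 P hP D hD with h4 | ⟨s, hs, hs0, h4⟩
      · left
        rw [h4, mul_zero]
      · by_cases hb : β D = 0
        · left
          rw [hb, mul_zero]
        have h5 := (hf 0 P hP).resolve_left hf0
        have h6 : P.ord s ≤ P.ord (f 0 ^ N * β D) := by
          rw [P.ord_mul (pow_ne_zero _ hf0) hb, P.ord_pow]
          push_cast at h4 ⊢
          have h7 : (N : ℤ) * (-(m * a P)) ≤ N * P.ord (f 0) :=
            mul_le_mul_of_nonneg_left h5 (Int.natCast_nonneg N)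
          linarith
        right
        have hmr : (1 : ℤ) ≤ ((m * r : ℕ) : ℤ) := by exact_mod_cast Nat.mul_pos hm hr
        by_cases h8 : 0 ≤ P.ord s
        · exact ⟨1, Finset.mem_insert_self _ _, one_ne_zero, by
            rw [P.ord_one, mul_zero]
            exact h8.trans h6⟩
        · refine ⟨s, Finset.mem_insert_of_mem hs, hs0, le_trans ?_ h6⟩
          push Not at h8
          nlinarith
    refine ⟨m * r, Nat.mul_pos hm hr, fun D => f 0 ^ N * β D, ⟨fun A D => ?_, fun P hP D hD => ?_,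
      fun P hP _ D hD => h3 P hP D hD⟩, D0, mul_ne_zero (pow_ne_zero _ hf0) hD0⟩
    · change f 0 ^ N * β _ = _
      rw [h1 A D, show N * m * r = m * r * N by ring]
      ring
    · exact h3 P hP D fun i => Pool.Agent.TH466.QG.derReg_of_log (hD i)

/-- **big + pseudo-effective = big** -/
theorem big_of_rest [CharZero K] {w r : ℕ} (htr : Algebra.trdeg ℂ K = w) (hr : 1 ≤ r)
    {a : Place ℂ K → ℤ} (h : PsefRest K w r a) (hA : DivKodGe K w a w) :
    KodGe ℂ K w (fun _ => False) w := by
  classical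
  obtain ⟨S, hS⟩ := h
  obtain ⟨m, hm, f, hf0, hf, hind⟩ := hA
  obtain ⟨g, hg⟩ : ∃ g : Fin w → K, g = fun i => f i.succ / f 0 := ⟨_, rfl⟩
  rw [← hg] at hind
  have hTB : IsTranscendenceBasis ℂ g := by
    refine hind.isTranscendenceBasis_of_lift_trdeg_le_of_finite ?_
    rw [htr]
    simp
  have halg : Algebra.IsAlgebraic (Algebra.adjoin ℂ (Set.range g)) K := hTB.isAlgebraic
  obtain ⟨c, hc0, hc⟩ := Algebra.IsAlgebraic.exists_integral_multiples
    (R := Algebra.adjoin ℂ (Set.range g)) S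
  have hc0' : (c : K) ≠ 0 := fun h => hc0 (Subtype.ext h)
  obtain ⟨T, hT⟩ : ∃ T : ℕ, ∀ s ∈ S, ∀ (P : Place ℂ K) (μ : ℤ), μ ≤ 0 →
      (∀ i, Ge P μ (g i)) → Ge P (T * μ) ((c : K) * s) := by
    have h1 : ∀ s : S, ∃ E : ℕ, ∀ (P : Place ℂ K) (μ : ℤ), μ ≤ 0 →
        (∀ i, Ge P μ (g i)) → Ge P (E * μ) ((c : K) * s) := by
      intro s
      have h2 := hc s s.2
      rw [Algebra.smul_def] at h2
      exact Pool.Agent.N133.Big.ge_integral h2
    choose E' hE' using h1
    refine ⟨∑ s, E' s, fun s hs P μ hμ h => (hE' ⟨s, hs⟩ P μ hμ h).mono ?_⟩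
    have h3 : E' ⟨s, hs⟩ ≤ ∑ s, E' s :=
      Finset.single_le_sum (f := E') (fun _ _ => Nat.zero_le _) (Finset.mem_univ _)
    have h4 : (E' ⟨s, hs⟩ : ℤ) ≤ ((∑ s, E' s : ℕ) : ℤ) := by exact_mod_cast h3
    nlinarith
  obtain ⟨β, h1, ⟨D0, hD0⟩, h2⟩ := hS ((T + 1) * m) (Nat.mul_pos (Nat.succ_pos T) hm)
  have hreg : ∀ (i : Fin (w + 1)) (P : Place ℂ K), Divisorial w P → ∀ D : Fin w → Derivation ℂ K K,
      (∀ i, DerReg P (D i)) → P.Reg (β D * ((c : K) * f 0 ^ T * f i)) := by
    intro i P hP D hD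
    rcases h2 P hP D hD with h4 | ⟨s, hs, hs0, h4⟩
    · left
      rw [h4, zero_mul]
    · by_cases hb : β D = 0
      · left
        rw [hb, zero_mul]
      rcases hf i P hP with hi | hi
      · left
        rw [hi, mul_zero, mul_zero]
      by_cases hi0 : f i = 0
      · left
        rw [hi0, mul_zero, mul_zero]
      have h5 := (hf 0 P hP).resolve_left hf0
      have h6 := hT s hs P (-(m * a P + P.ord (f 0))) (by linarith) fun l => by
        rw [hg]
        change Ge P _ (f l.succ / f 0)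
        rcases hf l.succ P hP with h7 | h7
        · left
          rw [h7, zero_div]
        · by_cases h8 : f l.succ = 0
          · left
            rw [h8, zero_div]
          right
          rw [P.ord_div h8 hf0]
          linarith
      have h7 := h6.resolve_left (mul_ne_zero hc0' hs0)
      rw [P.ord_mul hc0' hs0] at h7
      right
      rw [P.ord_mul hb (mul_ne_zero (mul_ne_zero hc0' (pow_ne_zero _ hf0)) hi0),
        P.ord_mul (mul_ne_zero hc0' (pow_ne_zero _ hf0)) hi0, P.ord_mul hc0' (pow_ne_zero _ hf0),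
        P.ord_pow]
      push_cast at h4 h7 ⊢
      nlinarith
  refine ⟨(T + 1) * m * r, Nat.mul_pos (Nat.mul_pos (Nat.succ_pos T) hm) hr,
    fun i D => β D * ((c : K) * f 0 ^ T * f i), fun i => ⟨fun A D => ?_, fun P hP D hD => ?_,
      fun P hP _ D hD => hreg i P hP D hD⟩, D0, ?_, ?_⟩
  · change β _ * _ = _
    rw [h1 A D]
    ring
  · exact hreg i P hP D fun l => Pool.Agent.TH466.QG.derReg_of_log (hD l)
  · exact mul_ne_zero hD0 (mul_ne_zero (mul_ne_zero hc0' (pow_ne_zero _ hf0)) hf0)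
  · rw [hg] at hind
    have h5 : (fun i : Fin w => β D0 * ((c : K) * f 0 ^ T * f i.succ) /
        (β D0 * ((c : K) * f 0 ^ T * f 0))) = fun i => f i.succ / f 0 := by
      funext i
      rw [mul_div_mul_left _ _ hD0, mul_div_mul_left _ _ (mul_ne_zero hc0' (pow_ne_zero _ hf0))]
    change AlgebraicIndependent ℂ (fun i : Fin w => β D0 * ((c : K) * f 0 ^ T * f i.succ) /
        (β D0 * ((c : K) * f 0 ^ T * f 0)))
    rw [h5]
    exact hind

/-- **The conjecture of Campana and Peternell** if the Kodaira dimension is at least `dim - 1` or the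
canonical class is not pseudo-effective. -/
theorem cp_of_dich {n r : ℕ} (htr : Algebra.trdeg ℂ K = (n + 1 : ℕ)) (hr : 1 ≤ r)
    {a : Place ℂ K → ℤ} (hd : Psef ℂ K (n + 1) (fun _ => False) →
      KodGe ℂ K (n + 1) (fun _ => False) n) (h : PsefRest K (n + 1) r a) {l : ℕ}
    (hA : DivKodGe K (n + 1) a l) : KodGe ℂ K (n + 1) (fun _ => False) l := by
  classical
  have hcK : CharZero K := charZero_of_injective_algebraMap (algebraMap ℂ K).injective
  have mono : ∀ {l l' : ℕ}, l' ≤ l → DivKodGe K (n + 1) a l → DivKodGe K (n + 1) a l' := by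
    intro l l' hl ⟨m, hm, f, hf0, hf, hind⟩
    refine ⟨m, hm, fun i => f (Fin.castLE (by omega) i), hf0, fun i => hf _, ?_⟩
    have h1 := hind.comp (Fin.castLE hl) (Fin.castLE_injective hl)
    exact h1
  rcases Nat.lt_or_ge n l with hl | hl
  · have hl1 : l = n + 1 := by
      obtain ⟨m, hm, f, hf0, hf, hind⟩ := hA
      have h1 := hind.lift_cardinalMk_le_trdeg
      rw [htr] at h1
      simp at h1
      have h2 : l ≤ n + 1 := by exact_mod_cast h1
      omega
    subst hl1
    exact big_of_rest htr hr h hA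
  · obtain ⟨N, hN, ω, h1, D, h2, h3⟩ := hd (psef_of_rest hr h (mono (Nat.zero_le l) hA))
    refine ⟨N, hN, fun i => ω (Fin.castLE (by omega) i), fun i => h1 _, D, h2, ?_⟩
    exact h3.comp (Fin.castLE hl) (Fin.castLE_injective hl)

end

end Pool.Agent.N162.GQ
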