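import Pool.Agent.N162.GQ.Factor
import Pool.Agent.N162.GQ.CP

/-!
Project GQ: varieties dominated by the product of several complete intersections and curves of large
gonality and of one more curve.
-/

set_option autoImplicit false
set_option linter.overlappingInstances false
set_option linter.unusedSectionVars false
set_option linter.unusedVariables false
set_option maxHeartbeats 4000000
set_option synthInstance.maxHeartbeats 400000

open FF IntermediateField Module

namespace Pool.Agent.N162.GQ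

open Pool.Agent.N145.SX Pool.Agent.N162.GP
open Pool.Agent.W602.GT (Divisorial RegAt IsPluri DerReg DerLog LogAt KodGe LogSec Psef)
open Pool.Agent.R882.LT (SecAt LogGenusZero)
open Pool.Agent.W619.PL (IsA1Uniruled)
open Pool.Agent.W619.PQ (IsUniruled)
open Pool.Agent.N162.BC (GlobalForm)

section

variable {K : Type} [Field K] [Algebra ℂ K] [Algebra.EssFiniteType ℂ K] {k g : ℕ} {n : Fin k → ℕ}
  {E : Fin k → IntermediateField ℂ K} {C : IntermediateField ℂ K} [IsFF ℂ C]
  (hGON : StGON) (hFAM : StFAM) (hE : ∀ i, Factor (E i) (n i) g)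
  (hd : Algebra.trdeg ℂ (⨆ i, E i : IntermediateField ℂ K) = (∑ i, n i : ℕ))

include hGON hFAM hE hd

theorem sepF_family : SepF (⨆ i, E i : IntermediateField ℂ K) (∑ i, n i) (fun _ => False) g := by
  have h1 := hFAM K k E n g (fun _ _ => False) (fun i => ess_factor (hE i))
    (fun i => dim_factor (hE i)) hd (fun i => sep_factor hGON (hE i) _)
  intro z hz Ω _ _ _ A hA c hc
  refine h1 z hz Ω A hA c fun f hf => hc f fun P hP => ?_
  have h2 := hf P hP
  refine ⟨h2.1, fun _ => h2.2 ?_⟩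
  rintro ⟨i, P', e, h3, -⟩
  exact h3

theorem ess_family : Algebra.EssFiniteType ℂ (⨆ i, E i : IntermediateField ℂ K) :=
  IntermediateField.essFiniteType_iff.2 (IntermediateField.fg_iSup fun i =>
    IntermediateField.essFiniteType_iff.1 (ess_factor (hE i)))

end

theorem bd_false {K E C : Type} [Field K] [Field E] [Field C] [Algebra ℂ K] [Algebra ℂ E]
    [Algebra ℂ C] [Algebra E K] [Algebra C K] (Q : Place ℂ K) :
    ¬ BdX (E := E) (C := C) (fun _ => False) (∅ : Set (Place ℂ C)) Q := by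
  rintro (⟨_, _, h3, -⟩ | ⟨_, h3, -⟩)
  · exact h3
  · exact h3

theorem uniruled_iff {L : Type} [Field L] [Algebra ℂ L] {n : ℕ} :
    IsA1Uniruled ℂ L n (fun _ => False) ↔ IsUniruled ℂ L n :=
  ⟨fun ⟨M, i1, i2, φ, h1, h2, _⟩ => ⟨M, i1, i2, h1, h2, ⟨φ⟩⟩,
    fun ⟨M, i1, i2, h1, h2, ⟨φ⟩⟩ => ⟨M, i1, i2, φ, h1, h2, fun _ _ _ _ _ _ => id⟩⟩

theorem genus_iff {L : Type} [Field L] [Algebra ℂ L] {n : ℕ} :
    LogGenusZero L n (fun _ => False) ↔ ∀ ω : (Fin n → Derivation ℂ L L) → L, GlobalForm n ω →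
      ∀ D, ω D = 0 := by
  refine ⟨fun h ω hω => h ω ⟨hω.1, fun P hP D hD => ?_, fun P hP _ => hω.2 P hP⟩,
    fun h ω hω => h ω ⟨hω.1, fun P hP => hω.2.2 P hP id⟩⟩
  exact hω.2 P hP D fun i => Pool.Agent.TH466.QG.derReg_of_log (hD i)

section

variable {K : Type} [Field K] [Algebra ℂ K] [Algebra.EssFiniteType ℂ K] {k g : ℕ} {n : Fin k → ℕ}
  {E : Fin k → IntermediateField ℂ K} {C : IntermediateField ℂ K} [IsFF ℂ C]
  (hGON : StGON) (hFAM : StFAM) (hE : ∀ i, Factor (E i) (n i) g)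
  (hd : Algebra.trdeg ℂ (⨆ i, E i : IntermediateField ℂ K) = (∑ i, n i : ℕ))
  (hEC : (⨆ i, E i) ⊔ C = ⊤) (hK : Algebra.trdeg ℂ K = ((∑ i, n i) + 1 : ℕ))
  {L : Type} [Field L] [Algebra ℂ L] [Algebra L K] [IsScalarTower ℂ L K] [FiniteDimensional L K]

include hGON hFAM hE hd hEC hK

theorem prod_genus (hr : finrank L (IntermediateField.adjoin L
      ((⨆ i, E i : IntermediateField ℂ K) : Set K)) < g) :
    [∀ ω : (Fin ((∑ i, n i) + 1) → Derivation ℂ L L) → L, GlobalForm ((∑ i, n i) + 1) ω →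
        ∀ D, ω D = 0, ¬ KodGe ℂ L ((∑ i, n i) + 1) (fun _ => False) 0,
      ¬ Psef ℂ L ((∑ i, n i) + 1) (fun _ => False), IsUniruled ℂ L ((∑ i, n i) + 1)].TFAE := by
  haveI := ess_family hGON hFAM hE hd
  obtain ⟨z, e, hz, he⟩ := Pool.Agent.Y172.exists_crd hd
  have h := genus_all hEC hd hK hz (BX := fun _ => False) (B := (∅ : Set (Place ℂ C)))
    Set.finite_empty (BL := fun _ => False)
    (fun P Q e h => ⟨False.elim, fun h2 => bd_false Q h2⟩)
    (sepF_family hGON hFAM hE hd z hz) hr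
  rw [genus_iff, uniruled_iff] at h
  exact h

theorem prod_dich (hr : 2 * finrank L (IntermediateField.adjoin L
      ((⨆ i, E i : IntermediateField ℂ K) : Set K)) < g) :
    [Psef ℂ L ((∑ i, n i) + 1) (fun _ => False),
      KodGe ℂ L ((∑ i, n i) + 1) (fun _ => False) (∑ i, n i),
      ¬ IsUniruled ℂ L ((∑ i, n i) + 1)].TFAE := by
  haveI := ess_family hGON hFAM hE hd
  obtain ⟨z, e, hz, he⟩ := Pool.Agent.Y172.exists_crd hd
  have h := dichotomy_all hEC hd hK hz (BX := fun _ => False) (B := (∅ : Set (Place ℂ C)))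
    Set.finite_empty (BL := fun _ => False)
    (fun P Q e h => ⟨False.elim, fun h2 => bd_false Q h2⟩)
    (sepF_family hGON hFAM hE hd z hz) hr
  rw [uniruled_iff] at h
  exact h

end

end Pool.Agent.N162.GQ
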