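import Pool.Agent.N145.SX.MFin

/-!
Project GQ: varieties of geometric genus zero which are dominated by the product of several varieties
and a curve. The proof of helper145 (`Pool/Agent/N145/SX/Multi.lean`) with one fibre instead of two.
-/

set_option autoImplicit false
set_option linter.overlappingInstances false
set_option linter.unusedSectionVars false
set_option linter.unusedVariables false
set_option maxHeartbeats 4000000
set_option synthInstance.maxHeartbeats 400000

open Polynomial FF IntermediateField Module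

namespace Pool.Agent.N162.GQ

open Pool.Agent.N145.SX
open Pool.Agent.W603.LV Pool.Agent.W619.PQ Pool.Agent.N145.PC Pool.Agent.N145.PL
open Pool.Agent.W602.GT (Divisorial RegAt IsPluri DerReg DerLog LogAt KodGe LogSec Psef)
open Pool.Agent.Y184.NT (trForm trForm_pluri)
open Pool.Agent.R882.LT (SecAt LogGenusZero)
open Pool.Agent.W619.PL (IsA1Uniruled)

open scoped Classical

section

variable {K : Type} [Field K] [Algebra ℂ K] {k : ℕ} {F : Fin (k + 1) → IntermediateField ℂ K}
  {m : Fin k → ℕ} {L : Type} [Field L] [Algebra ℂ L]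
  [Algebra L K] [IsScalarTower ℂ L K] [FiniteDimensional L K]

/-- **Several factors: geometric genus zero.** -/
theorem multi_one (hs2 : S_SEC2) [Algebra.EssFiniteType ℂ K]
    [∀ i, Algebra.EssFiniteType ℂ (F i)] [IsFF ℂ (F (Fin.last k))] (hsup : ⨆ i, F i = ⊤)
    (hm : ∀ i : Fin k, Algebra.trdeg ℂ (F i.castSucc) = m i)
    (hK : Algebra.trdeg ℂ K = (∑ i, m i + 1 : ℕ)) {x : ∀ i : Fin k, Fin (m i) → F i.castSucc}
    (hx : ∀ i, IsTranscendenceBasis ℂ (x i)) {BX : ∀ i : Fin k, Place ℂ (F i.castSucc) → Prop}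
    {B : Set (Place ℂ (F (Fin.last k)))} (hBf : B.Finite) {BL : Place ℂ L → Prop}
    (hB : ∀ (P : Place ℂ L) (Q : Place ℂ K) (e : ℕ), Over Q P e → (BL P ↔ BdM BX B Q))
    {g : Fin k → ℕ} (hsep : ∀ i, SepX (x i) (BX i) (g i))
    (hd : ∀ i : Fin k, finrank (MF F L (Js (k + 1) i)) (IntermediateField.adjoin
      (MF F L (Js (k + 1) i)) (F i.castSucc : Set K)) < g i) 
    (hz : LogGenusZero L (∑ i, m i + 1) BL) : IsA1Uniruled ℂ L (∑ i, m i + 1) BL := by
  have hL : Algebra.trdeg ℂ L = (∑ i, m i + 1 : ℕ) := Pool.Agent.Y184.NT.trdeg_below (K := K) hK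
  have hessL : Algebra.EssFiniteType ℂ L := Pool.Agent.TH466.QG.ess_below (K := K)
  obtain ⟨N, hN⟩ : ∃ N, N = ∑ i, m i := ⟨_, rfl⟩
  obtain ⟨e⟩ : Nonempty (Fin N ≃ (i : Fin k) × Fin (m i)) := by
    rw [hN]
    exact ⟨finSigmaFinEquiv.symm⟩
  have hind := ind_all hsup hK hx
  rw [← hN] at hK hL hz ⊢
  obtain ⟨E, hE⟩ : ∃ E, E = ⨆ i : Fin k, F i.castSucc := ⟨_, rfl⟩
  have hle : ∀ i : Fin k, F i.castSucc ≤ E := fun i => by
    rw [hE]
    exact le_iSup (fun i : Fin k => F i.castSucc) i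
  have hessE : Algebra.EssFiniteType ℂ E := ess_iSup (F := fun i : Fin k => F i.castSucc) hE
  have hzb := basis_zS x hle e hx hind hE
  have htrE := trdeg_basis hzb
  have hsup' : E ⊔ F (Fin.last k) = ⊤ := by
    rw [eq_top_iff, ← hsup]
    refine iSup_le fun i => ?_
    induction i using Fin.lastCases with
    | last => exact le_sup_right
    | cast i => exact (hle i).trans le_sup_left
  obtain ⟨t, ht, hBt⟩ := exists_xB hBf
  obtain ⟨D0, hD0⟩ := exists_D ht
  obtain ⟨hna, -, hcl⟩ := closed K N E (F (Fin.last k)) hsup' htrE hK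
  have hBd1 : ∀ Q : Place ℂ K, BdX (BdS (F := fun i : Fin k => F i.castSucc) hle BX) B Q →
      BdM BX B Q := by
    rintro Q (⟨P, a, ⟨i, P', b, h1, h2, h3⟩, ha, hQ⟩ | h1)
    · refine Or.inl ⟨i, P', a * b, h1, Nat.mul_pos ha h2, fun v => ?_⟩
      have h4 := hQ (⟨(v : K), hle i v.2⟩ : E)
      rw [h3 v] at h4
      have h5 : algebraMap E K (⟨(v : K), hle i v.2⟩ : E) = algebraMap (F i.castSucc) K v := rfl
      rw [h5] at h4
      rw [h4]
      push_cast
      ring
    · exact Or.inr h1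
  have hBd2 : ∀ Q : Place ℂ K, BdM BX B Q →
      BdX (BdS (F := fun i : Fin k => F i.castSucc) hle BX) B Q := by
    rintro Q (⟨i, P, a, h1, ha, h2⟩ | h1)
    · obtain ⟨u, -, hu⟩ := P.surj
      have h3 : Q.ord ((algebraMap E K : E →+* K) (⟨(u : K), hle i u.2⟩ : E)) ≠ 0 := by
        have h4 := h2 u
        rw [hu] at h4
        change Q.ord (u : K) ≠ 0
        change Q.ord (u : K) = _ at h4
        rw [h4]
        have : (a : ℤ) ≠ 0 := by exact_mod_cast ha.ne'
        simpa using this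
      obtain ⟨v, b, hb, hv⟩ := Pool.Agent.W619.Y.exists_restrict (k := ℂ) Q
        (algebraMap E K : E →+* K) (fun c hc => by
          have h4 : (algebraMap E K : E →+* K) (algebraMap ℂ E c) = algebraMap ℂ K c := rfl
          rw [h4]
          exact Q.ord_const hc) h3
      refine Or.inl ⟨v, b, ?_, hb, hv⟩
      have hv' : ∀ f : F i.castSucc, (a : ℤ) * P.ord f = b * v.ord (⟨(f : K), hle i f.2⟩ : E) := by
        intro f
        rw [← h2 f, ← hv (⟨(f : K), hle i f.2⟩ : E)]
        rfl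
      have h5 := hv' u
      rw [hu, mul_one] at h5
      have ha' : (0 : ℤ) < a := by exact_mod_cast ha
      have hb' : (0 : ℤ) < b := by exact_mod_cast hb
      have hc' : 0 < v.ord (⟨(u : K), hle i u.2⟩ : E) := by
        rw [h5] at ha'
        exact (mul_pos_iff_of_pos_left hb').1 ha'
      obtain ⟨c, hc⟩ : ∃ c : ℕ, (c : ℤ) = v.ord (⟨(u : K), hle i u.2⟩ : E) :=
        ⟨_, Int.toNat_of_nonneg hc'.le⟩
      refine ⟨i, P, c, h1, by omega, fun f => ?_⟩
      have h6 := hv' f
      rw [h5, ← hc, mul_assoc] at h6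
      exact (mul_left_cancel₀ hb'.ne' h6).symm
    · exact Or.inr h1
  obtain ⟨y, G, h, hy, hG, hh, hreg, hval⟩ := exists_traceX (L := L) sec htrE hK hzb
    (BdS (F := fun i : Fin k => F i.castSucc) hle BX) ht (basis_zz hK hzb (hna t ht)) hD0 B
    (BL := BL) fun P Q e h1 h2 => (hB P Q e h1).2 (hBd1 Q h2)
  have her := erase K N E (F (Fin.last k)) hsup' htrE hK _ hzb t ht D0 hD0
    (BdS (F := fun i : Fin k => F i.castSucc) hle BX) B hBt L BL
    (fun P Q e h1 h2 => hBd2 Q ((hB P Q e h1).1 h2)) h hval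
  obtain ⟨τ0⟩ : Nonempty (K →ₐ[L] AlgebraicClosure L) :=
    ⟨IsAlgClosed.lift (R := L) (M := AlgebraicClosure L) (S := K)⟩
  have hT' : IsScalarTower ℂ L (AlgebraicClosure L) := inferInstance
  obtain ⟨H, hH⟩ : ∃ H, H = HS x BX (HL D0 B : Set (F (Fin.last k))) := ⟨_, rfl⟩
  have hHl : H (Fin.last k) = (HL D0 B : Set (F (Fin.last k))) := by
    rw [hH]
    exact HS_last x BX _
  have hHc : ∀ i : Fin k, H i.castSucc = HX (x i) (BX i) := fun i => by
    rw [hH]
    exact HS_cast x BX _ i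
  let I := {f : ∀ i, F i // ∀ i, f i ∈ H i}
  obtain ⟨T, hT⟩ : ∃ T : I → L, ∀ f, T f =
    Algebra.trace L K (h * ∏ i, algebraMap (F i) K (f.1 i)) := ⟨_, fun _ => rfl⟩
  have hTreg : ∀ f, ∀ P : Place ℂ L, Divisorial (N + 1) P → SecAt BL P (trForm y (T f)) := by
    intro f P hP
    obtain ⟨q, hq1, hq2⟩ := prods hs2 k (fun i => F i.castSucc) m hm x hx hind BX E hE hle N e
      (fun i => f.1 i.castSucc) (fun i => by
        have := f.2 i.castSucc
        rwa [hHc] at this)
    have h1 := hreg q hq2 (f.1 (Fin.last k)) (by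
      have := f.2 (Fin.last k)
      rwa [hHl] at this) P hP
    have h2 : algebraMap E K q * algebraMap (F (Fin.last k)) K (f.1 (Fin.last k)) =
        ∏ i, algebraMap (F i) K (f.1 i) := by
      rw [Fin.prod_univ_castSucc]
      congr 1
    rw [h2] at h1
    rw [hT]
    exact h1
  obtain ⟨gg, hgg⟩ : ∃ gg : Fin (k + 1) → ℕ, gg = Fin.lastCases (motive := fun _ => ℕ) 0 g :=
    ⟨_, rfl⟩
  have hggl : gg (Fin.last k) = 0 := by
    rw [hgg]
    exact Fin.lastCases_last
  have hggc : ∀ i : Fin k, gg i.castSucc = g i := fun i => by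
    rw [hgg]
    exact Fin.lastCases_castSucc i
  have hS : ∀ (Ω : Type) [Field Ω] [Algebra ℂ Ω] [IsAlgClosed Ω] (i : Fin (k + 1)),
      Sep (ev Ω F i) (H i) (gg i) := by
    intro Ω _ _ _ i
    induction i using Fin.lastCases with
    | last =>
      intro A hA
      rw [hggl] at hA
      exact absurd hA (Nat.not_lt_zero _)
    | cast i =>
      intro A hA c hc
      rw [hggc] at hA
      rw [hHc] at hc
      exact hsep i Ω A hA c hc
  have htr1 : (∀ f : ∀ i, F i, f (Fin.last k) ∈ H (Fin.last k) →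
      Algebra.trace (MF F L (Finset.univ.erase (Fin.last k))) K
        (h * ∏ i, algebraMap (F i) K (f i)) = 0) → IsA1Uniruled ℂ L (N + 1) BL := by
    intro h0
    refine her fun φ hφ => ?_
    have h1 := h0 (Fin.lastCases (motive := fun i => F i) φ (fun _ => 1)) (by
      rw [Fin.lastCases_last, hHl]
      exact hφ)
    rw [Fin.prod_univ_castSucc, Fin.lastCases_last] at h1
    simp only [Fin.lastCases_castSucc, map_one, Finset.prod_const_one, one_mul] at h1
    rw [MF_erase hE] at h1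
    exact h1
  have hθE : ∀ t, trForm y t G = t := by
    intro t
    have h1 : (Matrix.of fun i j => G i (y j) : Matrix (Fin (N + 1)) (Fin (N + 1)) L) = 1 := by
      ext i j
      rw [Matrix.of_apply, hG, Matrix.one_apply]
    rw [trForm, h1, Matrix.det_one, one_mul]
  have hT0 : ∀ f, T f = 0 := fun f => by
    have h1 := hz (trForm y (T f)) ⟨trForm_pluri y _, fun P hP => (hTreg f P hP).1,
      fun P hP hB => (hTreg f P hP).2 hB⟩ G
    rwa [hθE] at h1
  have h0 := Ch.rel_zero (F := F) (H := H) (h := h) (fun f hf => by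
    have := hT0 ⟨f, hf⟩
    rwa [hT] at this) τ0
  have h1 := Rl.chain h0 (hS (AlgebraicClosure L)) (s := k) (fun l hl => by
    obtain ⟨i, rfl⟩ : ∃ i : Fin k, i.castSucc = l := ⟨⟨l.val, hl⟩, rfl⟩
    rw [hggc]
    exact lt_of_le_of_lt (Ch.count_le τ0 _ _) (hd i))
  rw [erase_last] at h1
  exact htr1 fun f hf => Ch.rel_erase h1 f hf

/-- **Several factors: geometric genus zero, Kodaira dimension `-∞` and uniruledness.** -/
theorem multi_genus [Algebra.EssFiniteType ℂ K]
    [∀ i, Algebra.EssFiniteType ℂ (F i)] [IsFF ℂ (F (Fin.last k))] (hsup : ⨆ i, F i = ⊤)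
    (hm : ∀ i : Fin k, Algebra.trdeg ℂ (F i.castSucc) = m i)
    (hK : Algebra.trdeg ℂ K = (∑ i, m i + 1 : ℕ)) {x : ∀ i : Fin k, Fin (m i) → F i.castSucc}
    (hx : ∀ i, IsTranscendenceBasis ℂ (x i)) {BX : ∀ i : Fin k, Place ℂ (F i.castSucc) → Prop}
    {B : Set (Place ℂ (F (Fin.last k)))} (hBf : B.Finite) {BL : Place ℂ L → Prop}
    (hB : ∀ (P : Place ℂ L) (Q : Place ℂ K) (e : ℕ), Over Q P e → (BL P ↔ BdM BX B Q))
    {g : Fin k → ℕ} (hsep : ∀ i, SepX (x i) (BX i) (g i))
    (hd : ∀ i : Fin k, finrank (MF F L (Js (k + 1) i)) (IntermediateField.adjoin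
      (MF F L (Js (k + 1) i)) (F i.castSucc : Set K)) < g i) :
    [LogGenusZero L (∑ i, m i + 1) BL, ¬ KodGe ℂ L (∑ i, m i + 1) BL 0,
      ¬ Psef ℂ L (∑ i, m i + 1) BL, IsA1Uniruled ℂ L (∑ i, m i + 1) BL].TFAE := by
  have hL : Algebra.trdeg ℂ L = (∑ i, m i + 1 : ℕ) := Pool.Agent.Y184.NT.trdeg_below (K := K) hK
  have hessL : Algebra.EssFiniteType ℂ L := Pool.Agent.TH466.QG.ess_below (K := K)
  exact tfaeL hL (multi_one sec2 hsup hm hK hx hBf hB hsep hd)

end

end Pool.Agent.N162.GQ
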