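import Pool.Agent.N162.GQ.Asm
import Pool.Agent.N162.GQ.MG

/-!
Project GQ: varieties dominated by the product of several complete intersections and curves of large
gonality and of one more curve, with one condition for each factor.
-/

set_option autoImplicit false
set_option linter.overlappingInstances false
set_option linter.unusedSectionVars false
set_option linter.unusedVariables false
set_option maxHeartbeats 4000000
set_option synthInstance.maxHeartbeats 400000

open FF IntermediateField Module

namespace Pool.Agent.N162.GQ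

open Pool.Agent.N145.SX Pool.Agent.N162.GP
open Pool.Agent.W602.GT (Divisorial RegAt IsPluri DerReg DerLog LogAt KodGe LogSec Psef)
open Pool.Agent.R882.LT (SecAt LogGenusZero)
open Pool.Agent.W619.PL (IsA1Uniruled)
open Pool.Agent.W619.PQ (IsUniruled)
open Pool.Agent.N162.BC (GlobalForm)

section

variable {K : Type} [Field K] [Algebra ℂ K] {k : ℕ}

/-- The function field of the image `W_i` in `W × V_0 × ... × V_(i-1)` of the product `V` of the
varieties `V_0, ..., V_k`: here `K` and `L` are the function fields of `V` and `W`, `V ⇢ W` is dominant,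
and `F l` is the function field of `V_l`. -/
noncomputable def Img (F : Fin (k + 1) → IntermediateField ℂ K) (L : Type) [Field L] [Algebra L K]
    (i : ℕ) : IntermediateField L K :=
  IntermediateField.adjoin L {z | ∃ l : Fin (k + 1), l.val < i ∧ z ∈ F l}

/-- The degree over `W_i` of the image of `V` in `W_i × V_i`. -/
noncomputable def deg (F : Fin (k + 1) → IntermediateField ℂ K) (L : Type) [Field L] [Algebra L K]
    (i : Fin (k + 1)) : ℕ :=
  finrank (Img F L i) (IntermediateField.adjoin (Img F L i) (F i : Set K))

theorem deg_eq (F : Fin (k + 1) → IntermediateField ℂ K) (L : Type) [Field L] [Algebra ℂ L]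
    [Algebra L K] [IsScalarTower ℂ L K] [FiniteDimensional L K] (i : Fin (k + 1)) :
    deg F L i = finrank (Pool.Agent.N145.PC.MF F L (Pool.Agent.N145.PC.Js (k + 1) i))
      (IntermediateField.adjoin (Pool.Agent.N145.PC.MF F L (Pool.Agent.N145.PC.Js (k + 1) i))
        (F i : Set K)) := by
  unfold deg Img
  rw [mf_eq]

end

section

variable {K : Type} [Field K] [Algebra ℂ K] [Algebra.EssFiniteType ℂ K] {k : ℕ} {n g : Fin k → ℕ}
  {F : Fin (k + 1) → IntermediateField ℂ K} [IsFF ℂ (F (Fin.last k))]
  (hGON : StGON) (hE : ∀ i : Fin k, Factor (F i.castSucc) (n i) (g i))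
  (hF : ⨆ i, F i = ⊤) (hK : Algebra.trdeg ℂ K = ((∑ i, n i) + 1 : ℕ))
  {L : Type} [Field L] [Algebra ℂ L] [Algebra L K] [IsScalarTower ℂ L K] [FiniteDimensional L K]

include hGON hE hF hK

theorem mprod_genus (hr : ∀ i : Fin k, deg F L i.castSucc < g i) :
    [∀ ω : (Fin ((∑ i, n i) + 1) → Derivation ℂ L L) → L, GlobalForm ((∑ i, n i) + 1) ω →
        ∀ D, ω D = 0, ¬ KodGe ℂ L ((∑ i, n i) + 1) (fun _ => False) 0,
      ¬ Psef ℂ L ((∑ i, n i) + 1) (fun _ => False), IsUniruled ℂ L ((∑ i, n i) + 1)].TFAE := by
  haveI : ∀ i, Algebra.EssFiniteType ℂ (F i) := fun i => by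
    induction i using Fin.lastCases with
    | last => exact (inferInstance : IsFF ℂ (F (Fin.last k))).ess
    | cast i => exact ess_factor (hE i)
  choose x D hx hD using fun i : Fin k => Pool.Agent.Y172.exists_crd (dim_factor (hE i))
  have h := multi_genus (L := L) hF (fun i => dim_factor (hE i)) hK hx
    (BX := fun _ _ => False) (B := ∅) Set.finite_empty (BL := fun _ => False)
    (fun P Q e h => ⟨fun h => absurd h id, fun h => absurd h (bdM_false Q)⟩)
    (fun i => sep_factor hGON (hE i) _ (x i) (hx i)) (fun i => by
      have := hr i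
      rwa [deg_eq] at this)
  rw [genus_iff, uniruled_iff] at h
  exact h

theorem mprod_dich (hr : ∀ i : Fin k, 2 * deg F L i.castSucc < g i) :
    [Psef ℂ L ((∑ i, n i) + 1) (fun _ => False),
      KodGe ℂ L ((∑ i, n i) + 1) (fun _ => False) (∑ i, n i),
      ¬ IsUniruled ℂ L ((∑ i, n i) + 1)].TFAE := by
  haveI : ∀ i, Algebra.EssFiniteType ℂ (F i) := fun i => by
    induction i using Fin.lastCases with
    | last => exact (inferInstance : IsFF ℂ (F (Fin.last k))).ess
    | cast i => exact ess_factor (hE i)
  choose x D hx hD using fun i : Fin k => Pool.Agent.Y172.exists_crd (dim_factor (hE i))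
  exact (multi_all (L := L) hF (fun i => dim_factor (hE i)) hK hx
    (fun i => sep_factor hGON (hE i) _ (x i) (hx i)) (fun i => by
      have := hr i
      rwa [deg_eq] at this)).1

end

end Pool.Agent.N162.GQ
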