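import Pool.Agent.N162.GQ.Deg

/-!
Project GQ: four equivalent conditions.
-/

set_option autoImplicit false
set_option linter.overlappingInstances false
set_option linter.unusedSectionVars false
set_option linter.unusedVariables false
set_option maxHeartbeats 4000000
set_option synthInstance.maxHeartbeats 400000

open FF IntermediateField Module

namespace Pool.Agent.N162.GQ

open Pool.Agent.N145.SX Pool.Agent.N162.GP
open Pool.Agent.W602.GT (KodGe Psef)
open Pool.Agent.W619.PQ (IsUniruled)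

section

variable {K : Type} [Field K] [Algebra ℂ K] [Algebra.EssFiniteType ℂ K] {k : ℕ} {n g : Fin k → ℕ}
  {F : Fin (k + 1) → IntermediateField ℂ K} [IsFF ℂ (F (Fin.last k))]
  (hGON : StGON) (hE : ∀ i : Fin k, Factor (F i.castSucc) (n i) (g i))
  (hF : ⨆ i, F i = ⊤) (hK : Algebra.trdeg ℂ K = ((∑ i, n i) + 1 : ℕ))
  {L : Type} [Field L] [Algebra ℂ L] [Algebra L K] [IsScalarTower ℂ L K] [FiniteDimensional L K]

include hGON hE hF hK

theorem mprod_dich4 (hr : ∀ i : Fin k, 2 * deg F L i.castSucc < g i) :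
    [KodGe ℂ L ((∑ i, n i) + 1) (fun _ => False) 0,
      KodGe ℂ L ((∑ i, n i) + 1) (fun _ => False) (∑ i, n i),
      Psef ℂ L ((∑ i, n i) + 1) (fun _ => False), ¬ IsUniruled ℂ L ((∑ i, n i) + 1)].TFAE := by
  have h := mprod_dich hGON hE hF hK hr
  tfae_have 1 → 3 := Pool.Agent.N145.PL.psef_of_kodGe'
  tfae_have 3 → 2 := (h.out 0 1).1
  tfae_have 2 → 1 := fun ⟨M, hM, ω, hω, D, hD, _⟩ =>
    ⟨M, hM, fun _ => ω 0, fun _ => hω 0, D, hD, algebraicIndependent_empty_type⟩
  tfae_have 3 ↔ 4 := h.out 0 2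
  tfae_finish

end

end Pool.Agent.N162.GQ
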