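import Pool.Agent.N162.GQ.Two
import Pool.Agent.N162.GP.Sep

/-!
Project GQ: products of smooth complete intersections and of curves of large gonality.
-/

set_option autoImplicit false
set_option linter.overlappingInstances false
set_option linter.unusedSectionVars false

open FF IntermediateField Module

namespace Pool.Agent.N162.GQ

open Pool.Agent.N145.SX Pool.Agent.N162.GP

/-- `E` is the function field of a variety of dimension `n` whose canonical forms separate less than
`g` generic points, of one of the following types: a variety in projective `(M + 1)`-space which is cut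
out by equations of degree at most `D` and has the canonical forms `P(x) ω₀` for all forms `P` of degree
`m` (`LowDegree`, for instance a smooth complete intersection), where `m ≥ 7 N + 4`,
`(M + 1) N < m + M + 2`, `D + N ≤ m + 2` and `g ≤ (N + 1) (m + 2 - N)`; or (`n = 1`) a curve of gonality
at least `g`: every nonconstant rational function on it has degree at least `g`. -/
def Factor (E : Type) [Field E] [Algebra ℂ E] (n g : ℕ) : Prop :=
  (∃ (M m D N : ℕ) (x : Fin (M + 2) → E), LowDegree n m D x ∧ 1 ≤ M ∧ 7 * N + 4 ≤ m ∧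
    (M + 1) * N < m + M + 2 ∧ D + N ≤ m + 2 ∧ g ≤ (N + 1) * (m + 2 - N)) ∨
  (n = 1 ∧ IsFF ℂ E ∧ ∀ y : E, Transcendental ℂ y →
    g ≤ finrank (IntermediateField.adjoin ℂ {y}) E)

theorem SepX.mono {E : Type} [Field E] [Algebra ℂ E] {n g g' : ℕ} {z : Fin n → E}
    {B : Place ℂ E → Prop} (h : SepX z B g) (hg : g' ≤ g) : SepX z B g' :=
  fun Ω _ _ _ A hA => h Ω A (lt_of_lt_of_le hA hg)

/-- the factors separate points -/
theorem sep_factor (hGON : StGON) {E : Type} [Field E] [Algebra ℂ E] {n g : ℕ} (h : Factor E n g)
    (B : Place ℂ E → Prop) : SepF E n B g := by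
  rcases h with ⟨M, m, D, N, x, h, hM, hm, hN, hD, hg⟩ | ⟨rfl, h1, h2⟩
  · intro z hz
    choose e he using fun j => Pool.Agent.N383.GP.exists_dual hz.1 j
    exact SepX.mono (sepX_low fINX h hM hm hN hD (e := e) hz
      (fun i j => by rw [he]; simp [eq_comm]) B) hg
  · exact hGON E g h2 B

theorem ess_factor {E : Type} [Field E] [Algebra ℂ E] {n g : ℕ} (h : Factor E n g) :
    Algebra.EssFiniteType ℂ E := by
  rcases h with ⟨M, m, D, N, x, h, -⟩ | ⟨rfl, h1, h2⟩
  · exact ess_of_gen h.gen
  · exact h1.ess

theorem dim_factor {E : Type} [Field E] [Algebra ℂ E] {n g : ℕ} (h : Factor E n g) :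
    Algebra.trdeg ℂ E = n := by
  rcases h with ⟨M, m, D, N, x, h, -⟩ | ⟨rfl, h1, h2⟩
  · exact h.dim
  · rw [h1.trdeg, Nat.cast_one]

end Pool.Agent.N162.GQ
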