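import Pool.Agent.N145.SX.Stm

/-!
# Project GQ: separation of points by the canonical forms of products

Statements of the parts.
-/

set_option autoImplicit false
set_option linter.overlappingInstances false
set_option linter.unusedSectionVars false

open FF IntermediateField Module

namespace Pool.Agent.N162.GQ

open Pool.Agent.W619.PQ Pool.Agent.N145.SX
open Pool.Agent.W602.GT (Divisorial RegAt IsPluri DerReg DerLog LogAt)

/-- The canonical forms of the variety with the function field `E` of dimension `n`, logarithmic along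
the boundary `B`, separate less than `g` generic points (in all coordinates). -/
def SepF (E : Type) [Field E] [Algebra ℂ E] (n : ℕ) (B : Place ℂ E → Prop) (g : ℕ) : Prop :=
  ∀ z : Fin n → E, IsTranscendenceBasis ℂ z → SepX z B g

/-- the boundary of a product of two open varieties -/
def Bd2 {K E₁ E₂ : Type} [Field K] [Field E₁] [Field E₂] [Algebra ℂ K] [Algebra ℂ E₁] [Algebra ℂ E₂]
    [Algebra E₁ K] [Algebra E₂ K] (B₁ : Place ℂ E₁ → Prop) (B₂ : Place ℂ E₂ → Prop)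
    (Q : Place ℂ K) : Prop :=
  (∃ (P : Place ℂ E₁) (e : ℕ), B₁ P ∧ Over Q P e) ∨ ∃ (P : Place ℂ E₂) (e : ℕ), B₂ P ∧ Over Q P e

/-- the boundary of a product of several open varieties -/
def BdF {K : Type} [Field K] [Algebra ℂ K] {k : ℕ} (E : Fin k → IntermediateField ℂ K)
    (B : ∀ i, Place ℂ (E i) → Prop) (Q : Place ℂ (⨆ i, E i : IntermediateField ℂ K)) : Prop :=
  ∃ (i : Fin k) (P : Place ℂ (E i)) (e : ℕ), B i P ∧ 0 < e ∧
    ∀ f : E i, Q.ord ⟨f, le_iSup E i f.2⟩ = e * P.ord f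

/-- GQ/WDG: the exterior product of logarithmic canonical forms of two varieties. -/
def StWDG : Prop := ∀ (K E₁ E₂ : Type) [Field K] [Field E₁] [Field E₂] [Algebra ℂ K] [Algebra ℂ E₁]
  [Algebra ℂ E₂] [Algebra E₁ K] [Algebra E₂ K] [IsScalarTower ℂ E₁ K] [IsScalarTower ℂ E₂ K]
  [Algebra.EssFiniteType ℂ E₁] [Algebra.EssFiniteType ℂ E₂] (n₁ n₂ : ℕ),
  Algebra.trdeg ℂ E₁ = n₁ → Algebra.trdeg ℂ E₂ = n₂ → Algebra.trdeg ℂ K = (n₁ + n₂ : ℕ) →
  ∀ (B₁ : Place ℂ E₁ → Prop) (B₂ : Place ℂ E₂ → Prop) (z₁ : Fin n₁ → E₁) (z₂ : Fin n₂ → E₂),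
  IsTranscendenceBasis ℂ z₁ → IsTranscendenceBasis ℂ z₂ → ∀ f₁ ∈ HX z₁ B₁, ∀ f₂ ∈ HX z₂ B₂,
  algebraMap E₁ K f₁ * algebraMap E₂ K f₂ ∈ HX (Fin.append (fun i => algebraMap E₁ K (z₁ i))
    fun i => algebraMap E₂ K (z₂ i)) (Bd2 B₁ B₂)

/-- GQ/TWO: the canonical forms of a product separate points. -/
def StTWO : Prop := ∀ (K E₁ E₂ : Type) [Field K] [Field E₁] [Field E₂] [Algebra ℂ K] [Algebra ℂ E₁]
  [Algebra ℂ E₂] [Algebra E₁ K] [Algebra E₂ K] [IsScalarTower ℂ E₁ K] [IsScalarTower ℂ E₂ K]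
  [Algebra.EssFiniteType ℂ E₁] [Algebra.EssFiniteType ℂ E₂] (n₁ n₂ g : ℕ),
  Algebra.trdeg ℂ E₁ = n₁ → Algebra.trdeg ℂ E₂ = n₂ → Algebra.trdeg ℂ K = (n₁ + n₂ : ℕ) →
  IntermediateField.adjoin ℂ (Set.range (algebraMap E₁ K) ∪ Set.range (algebraMap E₂ K)) = ⊤ →
  ∀ (B₁ : Place ℂ E₁ → Prop) (B₂ : Place ℂ E₂ → Prop), SepF E₁ n₁ B₁ g → SepF E₂ n₂ B₂ g →
  SepF K (n₁ + n₂) (Bd2 B₁ B₂) g

/-- GQ/FAM: several factors. -/
def StFAM : Prop := ∀ (K : Type) [Field K] [Algebra ℂ K] (k : ℕ)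
  (E : Fin k → IntermediateField ℂ K) (n : Fin k → ℕ) (g : ℕ) (B : ∀ i, Place ℂ (E i) → Prop),
  (∀ i, Algebra.EssFiniteType ℂ (E i)) → (∀ i, Algebra.trdeg ℂ (E i) = n i) →
  Algebra.trdeg ℂ (⨆ i, E i : IntermediateField ℂ K) = (∑ i, n i : ℕ) →
  (∀ i, SepF (E i) (n i) (B i) g) →
  SepF (⨆ i, E i : IntermediateField ℂ K) (∑ i, n i) (BdF E B) g

/-- GQ/GON: curves of large gonality. -/
def StGON : Prop := ∀ (F : Type) [Field F] [Algebra ℂ F] [IsFF ℂ F] (g : ℕ),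
  (∀ y : F, Transcendental ℂ y → g ≤ Module.finrank (IntermediateField.adjoin ℂ {y}) F) →
  ∀ B : Place ℂ F → Prop, SepF F 1 B g

end Pool.Agent.N162.GQ
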