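import Pool.Agent.N249.GQ.Lap
import Pool.Agent.N162.GQ.Stm
import Pool.Agent.N123.SX.PULL

set_option autoImplicit false
set_option linter.overlappingInstances false
set_option linter.unusedSectionVars false

open FF IntermediateField Module

namespace Pool.Agent.N162.GQ

open Pool.Agent.W619.PQ Pool.Agent.N145.SX Pool.Agent.W603.LV
open Pool.Agent.W602.GT (Divisorial RegAt IsPluri DerReg DerLog LogAt)
open Pool.Agent.Y184.NT (trForm trForm_pluri)

theorem wdg0 : StWDG := by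
  intro K E₁ E₂ _ _ _ _ _ _ _ _ _ _ _ _ n₁ n₂ h1 h2 hK B₁ B₂ z₁ z₂ hz₁ hz₂ f₁ hf₁ f₂ hf₂ Q hQ
  have hcK : CharZero K := charZero_of_injective_algebraMap (algebraMap ℂ K).injective
  have main : ∀ D : Fin (n₁ + n₂) → Derivation ℂ K K,
      (∀ a : Fin n₁ → Fin (n₁ + n₂), Q.Reg ((Matrix.of fun i j => D (a i) (algebraMap E₁ K (z₁ j)) :
        Matrix (Fin n₁) (Fin n₁) K).det * algebraMap E₁ K f₁)) →
      (∀ a : Fin n₂ → Fin (n₁ + n₂), Q.Reg ((Matrix.of fun i j => D (a i) (algebraMap E₂ K (z₂ j)) :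
        Matrix (Fin n₂) (Fin n₂) K).det * algebraMap E₂ K f₂)) →
      Q.Reg (trForm (Fin.append (fun i => algebraMap E₁ K (z₁ i))
        fun i => algebraMap E₂ K (z₂ i)) (algebraMap E₁ K f₁ * algebraMap E₂ K f₂) D) := by
    intro D e1 e2
    have h3 := Pool.Agent.N249.GQ.laplace' (n₁ := n₁) (n₂ := n₂)
      (Matrix.of fun i j => D i (Fin.append (fun i => algebraMap E₁ K (z₁ i))
        (fun i => algebraMap E₂ K (z₂ i)) j))
    obtain ⟨c, hc⟩ : ∃ c : ℕ, c = n₁.factorial * n₂.factorial := ⟨_, rfl⟩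
    have hc0 : (c : ℂ) ≠ 0 := by
      rw [hc]
      exact_mod_cast Nat.mul_ne_zero (Nat.factorial_ne_zero _) (Nat.factorial_ne_zero _)
    rw [← hc] at h3
    have h4 : Ge Q 0 ((c : K) * trForm (Fin.append (fun i => algebraMap E₁ K (z₁ i))
        fun i => algebraMap E₂ K (z₂ i)) (algebraMap E₁ K f₁ * algebraMap E₂ K f₂) D) := by
      unfold trForm
      rw [← mul_assoc, h3, Finset.sum_mul]
      refine Ge.sum _ _ fun s _ => ?_
      have h5 : Ge Q 0 _ := e1 fun i => finSumFinEquiv (s (Sum.inl i))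
      have h6 : Ge Q 0 _ := e2 fun i => finSumFinEquiv (s (Sum.inr i))
      have h7 : Ge Q 0 (((Equiv.Perm.sign s : ℤ) : K)) := by
        have h8 := Ge.const (P := Q) ((Equiv.Perm.sign s : ℤ) : ℂ)
        rwa [map_intCast] at h8
      have h8 := h7.mul (h5.mul h6)
      rw [add_zero, add_zero] at h8
      refine Eq.mp (congrArg _ ?_) h8
      simp only [Matrix.of_apply, Fin.append_left, Fin.append_right]
      ring
    have h5 := (Ge.const (P := Q) ((c : ℂ)⁻¹)).mul h4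
    rw [← mul_assoc, ← map_natCast (algebraMap ℂ K), ← map_mul, inv_mul_cancel₀ hc0, map_one,
      one_mul, add_zero] at h5
    exact h5
  refine ⟨fun D hD => main D (fun a => ?_) fun a => ?_, fun hQB D hD => main D (fun a => ?_)
    fun a => ?_⟩
  · exact Pool.Agent.N123.SX.PULL E₁ K n₁ (n₁ + n₂) h1 hK z₁ hz₁ B₁ f₁ hf₁ Q hQ (fun i => D (a i))
      (Or.inl fun i => hD _)
  · exact Pool.Agent.N123.SX.PULL E₂ K n₂ (n₁ + n₂) h2 hK z₂ hz₂ B₂ f₂ hf₂ Q hQ (fun i => D (a i))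
      (Or.inl fun i => hD _)
  · exact Pool.Agent.N123.SX.PULL E₁ K n₁ (n₁ + n₂) h1 hK z₁ hz₁ B₁ f₁ hf₁ Q hQ (fun i => D (a i))
      (Or.inr ⟨fun h => hQB (Or.inl (by obtain ⟨P, e, h4, h5⟩ := h; exact ⟨P, e, h4, h5⟩)),
        fun i => hD _⟩)
  · exact Pool.Agent.N123.SX.PULL E₂ K n₂ (n₁ + n₂) h2 hK z₂ hz₂ B₂ f₂ hf₂ Q hQ (fun i => D (a i))
      (Or.inr ⟨fun h => hQB (Or.inr (by obtain ⟨P, e, h4, h5⟩ := h; exact ⟨P, e, h4, h5⟩)),
        fun i => hD _⟩)

end Pool.Agent.N162.GQ
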