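import Pool.Agent.N162.GQ.Two
import Pool.Agent.N162.GQ.Wdg0
import Pool.Agent.N288.GQ.Fam
import Pool.Agent.N78.GQ.Gon

/-!
The parts of the project GQ.
-/

set_option autoImplicit false

namespace Pool.Agent.N162.GQ

theorem fWDG : StWDG := wdg0
theorem fTWO : StTWO := two_ fWDG
theorem fFAM : StFAM := Pool.Agent.N288.GQ.fam_ fTWO
theorem fGON : StGON := Pool.Agent.N78.GQ.gon_

end Pool.Agent.N162.GQ
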