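import Pool.Agent.N162.GQ.Deg
import Pool.Agent.N145.SX.Flat
import Pool.Agent.R882.GLb

/-!
Project GQ: varieties which are dominated by products, of nonnegative Kodaira dimension and not of
general type, are swept out by elliptic curves.
-/

set_option autoImplicit false
set_option linter.overlappingInstances false
set_option linter.unusedSectionVars false
set_option linter.unusedVariables false
set_option maxHeartbeats 4000000
set_option synthInstance.maxHeartbeats 400000

open FF IntermediateField Module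

namespace Pool.Agent.N162.GQ

open Pool.Agent.N145.SX Pool.Agent.N162.GP
open Pool.Agent.N145.PL (psef_of_kodGe')
open Pool.Agent.W602.GT (Divisorial RegAt IsPluri DerReg KodGe Psef)
open Pool.Agent.W619.PQ (IsUniruled)

/-- The curve with the function field `F` over the algebraically closed field `Λ` is elliptic: it is
not rational, and it has a vector field `D` without zeros and poles, i.e. `D t` is a unit for the
uniformizers `t` at all points `w`. -/
def IsElliptic (Λ F : Type) [Field Λ] [Field F] [Algebra Λ F] : Prop :=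
  (¬ ∃ t : F, Λ⟮t⟯ = ⊤) ∧ ∃ D : Derivation Λ F F, ∀ (w : Place Λ F) (t : F), w.ord t = 1 →
    D t ≠ 0 ∧ w.ord (D t) = 0

/-- The variety with the function field `L`, of dimension `m + 1`, is swept out by elliptic curves:
there is an `m`-dimensional family of elliptic curves which dominates it. There are an algebraically
closed field `Λ` of transcendence degree `m` (the algebraic closure of the function field of the base
of the family), an elliptic curve over `Λ` with function field `F` (the geometric generic curve of the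
family), and an embedding of `L` into `F` (the dominant map from the total space). -/
def IsSweptOutByElliptic (L : Type) [Field L] [Algebra ℂ L] (m : ℕ) : Prop :=
  ∃ (Λ F : Type) (_ : Field Λ) (_ : Field F) (_ : Algebra ℂ Λ) (_ : Algebra ℂ F)
    (_ : Algebra Λ F) (_ : IsScalarTower ℂ Λ F) (_ : IsAlgClosed Λ) (_ : IsFF Λ F),
    Algebra.trdeg ℂ Λ = m ∧ IsElliptic Λ F ∧ Nonempty (L →ₐ[ℂ] F)

theorem uniruled_of_rat {L : Type} [Field L] [Algebra ℂ L] [Algebra.EssFiniteType ℂ L] {m : ℕ}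
    (hL : Algebra.trdeg ℂ L = (m + 1 : ℕ)) {Λ F : Type} [Field Λ] [Field F] [Algebra ℂ Λ]
    [Algebra ℂ F] [Algebra Λ F] [IsScalarTower ℂ Λ F] [IsFF Λ F] (hΛ : Algebra.trdeg ℂ Λ = m)
    (φ : L →ₐ[ℂ] F) {t : F} (ht : Λ⟮t⟯ = ⊤) : IsUniruled ℂ L (m + 1) := by
  refine Pool.Agent.R882.GL.uniruled_geo hL hΛ rfl φ t ?_ fun e => by rw [ht]; trivial
  intro halg
  obtain ⟨y, hy⟩ := IsFF.exists_transcendental (k := Λ) (K := F)
  apply hy
  have h1 : Algebra.IsAlgebraic Λ Λ⟮t⟯ := IntermediateField.isAlgebraic_adjoin_simple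
    halg.isIntegral
  have h2 : y ∈ Λ⟮t⟯ := by rw [ht]; trivial
  have h3 := h1.isAlgebraic (⟨y, h2⟩ : Λ⟮t⟯)
  exact (isAlgebraic_algebraMap_iff (algebraMap Λ⟮t⟯ F).injective).2 h3

/-- **Swept out by elliptic curves.** -/
theorem swept_of_cov {L : Type} [Field L] [Algebra ℂ L] [Algebra.EssFiniteType ℂ L] {m : ℕ}
    (hL : Algebra.trdeg ℂ L = (m + 1 : ℕ)) (h : Cov1 L m) (hu : ¬ IsUniruled ℂ L (m + 1)) :
    IsSweptOutByElliptic L m := by
  obtain ⟨Λ, F, i1, i2, i3, i4, i5, i6, i7, i8, h1, h2, ⟨φ⟩⟩ := h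
  have hch : CharZero Λ := charZero_of_injective_algebraMap (algebraMap ℂ Λ).injective
  have hrat : ¬ ∃ t : F, Λ⟮t⟯ = ⊤ := fun ⟨t, ht⟩ => hu (uniruled_of_rat hL h1 φ ht)
  refine ⟨Λ, F, i1, i2, i3, i4, i5, i6, i7, i8, h1, ⟨hrat, ?_⟩, ⟨φ⟩⟩
  obtain ⟨D, hD⟩ := (flat_of_glo h2).resolve_left hrat
  exact ⟨D, flat_iff.2 hD⟩

theorem cov_of_swept {L : Type} [Field L] [Algebra ℂ L] {m : ℕ} (h : IsSweptOutByElliptic L m) :
    Cov1 L m := by
  obtain ⟨Λ, F, i1, i2, i3, i4, i5, i6, i7, i8, h1, ⟨-, D, hD⟩, h3⟩ := h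
  have hch : CharZero Λ := charZero_of_injective_algebraMap (algebraMap ℂ Λ).injective
  exact ⟨Λ, F, i1, i2, i3, i4, i5, i6, i7, i8, h1, glo_of_flat (Or.inr ⟨D, flat_iff.1 hD⟩), h3⟩

section

variable {K : Type} [Field K] [Algebra ℂ K] [Algebra.EssFiniteType ℂ K] {k : ℕ} {n g : Fin k → ℕ}
  {F : Fin (k + 1) → IntermediateField ℂ K} [IsFF ℂ (F (Fin.last k))]
  (hGON : StGON) (hE : ∀ i : Fin k, Factor (F i.castSucc) (n i) (g i))
  (hF : ⨆ i, F i = ⊤) (hK : Algebra.trdeg ℂ K = ((∑ i, n i) + 1 : ℕ))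
  {L : Type} [Field L] [Algebra ℂ L] [Algebra L K] [IsScalarTower ℂ L K] [FiniteDimensional L K]

include hGON hE hF hK

theorem mprod_swept (hr : ∀ i : Fin k, 2 * deg F L i.castSucc < g i)
    (h0 : KodGe ℂ L ((∑ i, n i) + 1) (fun _ => False) 0) :
    KodGe ℂ L ((∑ i, n i) + 1) (fun _ => False) ((∑ i, n i) + 1) ∨
      (IsSweptOutByElliptic L (∑ i, n i) ∧
        KodGe ℂ L ((∑ i, n i) + 1) (fun _ => False) (∑ i, n i)) := by
  haveI : ∀ i, Algebra.EssFiniteType ℂ (F i) := fun i => by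
    induction i using Fin.lastCases with
    | last => exact (inferInstance : IsFF ℂ (F (Fin.last k))).ess
    | cast i => exact ess_factor (hE i)
  choose x D hx hD using fun i : Fin k => Pool.Agent.Y172.exists_crd (dim_factor (hE i))
  have hL : Algebra.trdeg ℂ L = ((∑ i, n i) + 1 : ℕ) :=
    Pool.Agent.Y184.NT.trdeg_below (K := K) hK
  haveI : Algebra.EssFiniteType ℂ L := Pool.Agent.TH466.QG.ess_below (K := K)
  obtain ⟨h1, h2, -⟩ := multi_all (L := L) hF (fun i => dim_factor (hE i)) hK hx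
    (fun i => sep_factor hGON (hE i) _ (x i) (hx i)) (fun i => by
      have := hr i
      rwa [deg_eq] at this)
  have h3 := (h1.out 0 2).1 (psef_of_kodGe' h0)
  by_cases hg : KodGe ℂ L ((∑ i, n i) + 1) (fun _ => False) ((∑ i, n i) + 1)
  · exact Or.inl hg
  · have h4 : Cov1 L (∑ i, n i) := by
      by_contra h5
      exact hg ((h2.out 0 2).2 h5)
    exact Or.inr ⟨swept_of_cov hL h4 h3, (h1.out 0 1).1 (psef_of_kodGe' h0)⟩

end

end Pool.Agent.N162.GQ
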