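import Pool.Agent.N162.GQ.Stm
import Pool.Agent.N145.SX.Fin
import Pool.Agent.N383.GP.GL

/-!
Project GQ: the canonical forms of a product separate points.
-/

set_option autoImplicit false
set_option linter.overlappingInstances false
set_option linter.unusedSectionVars false

open FF IntermediateField Module

namespace Pool.Agent.N162.GQ

open Pool.Agent.W619.PQ Pool.Agent.N145.SX
open Pool.Agent.W602.GT (Divisorial RegAt IsPluri DerReg DerLog LogAt)
open Pool.Agent.Y184.NT (trForm trForm_pluri)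

/-- changing the coordinates -/
theorem sepX_crd {E : Type} [Field E] [Algebra ℂ E] {n : ℕ} {w z : Fin n → E}
    (hw : IsTranscendenceBasis ℂ w) (hz : IsTranscendenceBasis ℂ z)
    {d e : Fin n → Derivation ℂ E E} (hd : ∀ i j, d i (w j) = if i = j then 1 else 0)
    (he : ∀ i j, e i (z j) = if i = j then 1 else 0) {B : Place ℂ E → Prop} {g : ℕ}
    (h : SepX w B g) : SepX z B g := by
  classical
  obtain ⟨J, hJ⟩ : ∃ J, J = trForm w 1 e := ⟨_, rfl⟩
  have h1 : ∀ f, trForm z (J * f) = trForm w f := by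
    intro f
    have h2 := form_coord hz he (trForm_pluri w f)
    rw [← h2]
    congr 1
    rw [hJ]
    simp [trForm]
  have hJ0 : J ≠ 0 := by
    intro h0
    have h2 := congrFun (h1 1) d
    rw [h0, zero_mul] at h2
    have h3 : trForm w 1 d = 1 := by
      have h4 : (Matrix.of fun i j => d i (w j) : Matrix (Fin n) (Fin n) E) = 1 := by
        ext i j
        rw [Matrix.of_apply, hd, Matrix.one_apply]
      simp [trForm, h4]
    rw [h3] at h2
    simp [trForm] at h2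
  intro Ω _ _ _ A hA c hc σ hσ
  have h2 := h Ω A hA (fun σ => c σ * σ J) (fun f hf => by
    have h3 := hc (J * f) fun P hP => by
      rw [h1]
      exact hf P hP
    rw [← h3]
    refine Finset.sum_congr rfl fun σ _ => ?_
    rw [map_mul]
    ring) σ hσ
  exact (mul_eq_zero.1 h2).resolve_right ((map_ne_zero_iff σ σ.toRingHom.injective).2 hJ0)

theorem alg_push {E K : Type} [Field E] [Field K] [Algebra ℂ E] [Algebra ℂ K] (φ : E →ₐ[ℂ] K)
    {S : Set E} {F : IntermediateField ℂ K} (h : ∀ s ∈ S, φ s ∈ F) {a : E}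
    (ha : IsAlgebraic (IntermediateField.adjoin ℂ S) a) : IsAlgebraic F (φ a) := by
  have h1 : IntermediateField.adjoin ℂ S ≤ F.comap φ := by
    rw [IntermediateField.adjoin_le_iff]
    exact h
  obtain ⟨ψ, hψ⟩ : ∃ ψ : IntermediateField.adjoin ℂ S →+* F, ∀ x, ((ψ x : F) : K) = φ x :=
    ⟨(φ.toRingHom.comp (algebraMap (IntermediateField.adjoin ℂ S) E)).codRestrict F
      fun x => h1 x.2, fun x => rfl⟩
  obtain ⟨p, hp0, hp⟩ := ha
  refine ⟨p.map ψ, (Polynomial.map_ne_zero_iff ψ.injective).2 hp0, ?_⟩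
  rw [Polynomial.aeval_def, Polynomial.eval₂_map]
  rw [Polynomial.aeval_def] at hp
  have h2 := Polynomial.hom_eval₂ p (algebraMap (IntermediateField.adjoin ℂ S) E) (φ : E →+* K) a
  rw [hp, map_zero] at h2
  have h3 : (algebraMap F K).comp ψ =
      (φ : E →+* K).comp (algebraMap (IntermediateField.adjoin ℂ S) E) := RingHom.ext fun x => hψ x
  rw [h3]
  exact h2.symm

open scoped IntermediateField.algebraAdjoinAdjoin in
/-- coordinates on a product -/
theorem basis_append {K E₁ E₂ : Type} [Field K] [Field E₁] [Field E₂] [Algebra ℂ K] [Algebra ℂ E₁]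
    [Algebra ℂ E₂] [Algebra E₁ K] [Algebra E₂ K] [IsScalarTower ℂ E₁ K] [IsScalarTower ℂ E₂ K]
    {n₁ n₂ : ℕ} (hK : Algebra.trdeg ℂ K = (n₁ + n₂ : ℕ))
    (hgen : IntermediateField.adjoin ℂ (Set.range (algebraMap E₁ K) ∪
      Set.range (algebraMap E₂ K)) = ⊤) {z₁ : Fin n₁ → E₁} {z₂ : Fin n₂ → E₂}
    (hz₁ : IsTranscendenceBasis ℂ z₁) (hz₂ : IsTranscendenceBasis ℂ z₂) :
    IsTranscendenceBasis ℂ (Fin.append (fun i => algebraMap E₁ K (z₁ i))
      fun i => algebraMap E₂ K (z₂ i)) := by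
  obtain ⟨w, hw⟩ : ∃ w, w = (Fin.append (fun i => algebraMap E₁ K (z₁ i))
    fun i => algebraMap E₂ K (z₂ i)) := ⟨_, rfl⟩
  rw [← hw]
  obtain ⟨F, hF⟩ : ∃ F, F = IntermediateField.adjoin ℂ (Set.range w) := ⟨_, rfl⟩
  have hwF : ∀ i, w i ∈ F := fun i => by
    rw [hF]
    exact IntermediateField.subset_adjoin _ _ ⟨i, rfl⟩
  have e1 : ∀ a : E₁, IsAlgebraic F (algebraMap E₁ K a) := by
    intro a
    have h1 := hz₁.isAlgebraic_field
    refine alg_push (IsScalarTower.toAlgHom ℂ E₁ K) ?_ (h1.isAlgebraic a)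
    rintro _ ⟨i, rfl⟩
    have h2 := hwF (Fin.castAdd n₂ i)
    rw [hw, Fin.append_left] at h2
    exact h2
  have e2 : ∀ a : E₂, IsAlgebraic F (algebraMap E₂ K a) := by
    intro a
    have h1 := hz₂.isAlgebraic_field
    refine alg_push (IsScalarTower.toAlgHom ℂ E₂ K) ?_ (h1.isAlgebraic a)
    rintro _ ⟨i, rfl⟩
    have h2 := hwF (Fin.natAdd n₁ i)
    rw [hw, Fin.append_right] at h2
    exact h2
  have h3 : (⊤ : IntermediateField ℂ K) ≤ (algebraicClosure F K).restrictScalars ℂ := by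
    rw [← hgen, IntermediateField.adjoin_le_iff]
    rintro _ (⟨a, rfl⟩ | ⟨a, rfl⟩)
    · exact mem_algebraicClosure_iff.2 (e1 a)
    · exact mem_algebraicClosure_iff.2 (e2 a)
  have h4 : Algebra.IsAlgebraic F K :=
    ⟨fun b => mem_algebraicClosure_iff.1 (h3 (IntermediateField.mem_top (x := b)))⟩
  have h5 : Algebra.IsAlgebraic (Algebra.adjoin ℂ (Set.range w)) K := by
    subst hF
    exact Algebra.IsAlgebraic.trans (Algebra.adjoin ℂ (Set.range w))
      (IntermediateField.adjoin ℂ (Set.range w)) K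
  refine Algebra.IsAlgebraic.isTranscendenceBasis_of_le_trdeg_of_finite ℂ w ?_
  rw [hK]
  simp

/-- GQ/TWO -/
theorem two_ (hW : StWDG) : StTWO := by
  classical
  intro K E₁ E₂ _ _ _ _ _ _ _ _ _ _ _ _ n₁ n₂ g h1 h2 hK hgen B₁ B₂ s1 s2 z hz
  obtain ⟨z₁, e₁, hz₁, he₁⟩ := Pool.Agent.Y172.exists_crd h1
  obtain ⟨z₂, e₂, hz₂, he₂⟩ := Pool.Agent.Y172.exists_crd h2
  have hwB := basis_append hK hgen hz₁ hz₂
  choose d hd using fun j => Pool.Agent.N383.GP.exists_dual hwB.1 j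
  choose e he using fun j => Pool.Agent.N383.GP.exists_dual hz.1 j
  refine sepX_crd hwB hz (d := d) (e := e) (fun i j => by rw [hd]; simp [eq_comm])
    (fun i j => by rw [he]; simp [eq_comm]) ?_
  intro Ω _ _ _ A hA c hc
  obtain ⟨r₁, hr₁⟩ : ∃ r₁ : (K →ₐ[ℂ] Ω) → (E₁ →ₐ[ℂ] Ω), ∀ σ a, r₁ σ a = σ (algebraMap E₁ K a) :=
    ⟨fun σ => σ.comp (IsScalarTower.toAlgHom ℂ E₁ K), fun _ _ => rfl⟩
  obtain ⟨r₂, hr₂⟩ : ∃ r₂ : (K →ₐ[ℂ] Ω) → (E₂ →ₐ[ℂ] Ω), ∀ σ a, r₂ σ a = σ (algebraMap E₂ K a) :=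
    ⟨fun σ => σ.comp (IsScalarTower.toAlgHom ℂ E₂ K), fun _ _ => rfl⟩
  have hinj : ∀ σ τ : K →ₐ[ℂ] Ω, r₁ σ = r₁ τ → r₂ σ = r₂ τ → σ = τ := by
    intro σ τ ha hb
    have h3 : (⊤ : IntermediateField ℂ K) ≤
        (AlgHom.equalizer σ τ).toIntermediateField (fun x hx => by
          change σ x⁻¹ = τ x⁻¹
          rw [map_inv₀, map_inv₀, show σ x = τ x from hx]) := by
      rw [← hgen, IntermediateField.adjoin_le_iff]
      rintro _ (⟨a, rfl⟩ | ⟨a, rfl⟩)
      · change σ _ = τ _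
        rw [← hr₁, ← hr₁, ha]
      · change σ _ = τ _
        rw [← hr₂, ← hr₂, hb]
    exact AlgHom.ext fun a => h3 (IntermediateField.mem_top (x := a))
  have hC : ∀ f₂ ∈ HX z₂ B₂, ∀ ρ ∈ A.image r₁,
      ∑ σ ∈ A.filter (fun σ => r₁ σ = ρ), c σ * σ (algebraMap E₂ K f₂) = 0 := by
    intro f₂ hf₂
    refine s1 z₁ hz₁ Ω (A.image r₁) (lt_of_le_of_lt Finset.card_image_le hA)
      (fun ρ => ∑ σ ∈ A.filter (fun σ => r₁ σ = ρ), c σ * σ (algebraMap E₂ K f₂)) fun f₁ hf₁ => ?_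
    have h3 := hc _ (hW K E₁ E₂ n₁ n₂ h1 h2 hK B₁ B₂ z₁ z₂ hz₁ hz₂ f₁ hf₁ f₂ hf₂)
    rw [← Finset.sum_fiberwise_of_maps_to (t := A.image r₁) (g := r₁)
      (fun σ hσ => Finset.mem_image_of_mem r₁ hσ)] at h3
    rw [← h3]
    refine Finset.sum_congr rfl fun ρ _ => ?_
    rw [Finset.sum_mul]
    refine Finset.sum_congr rfl fun σ hσ => ?_
    rw [← (Finset.mem_filter.1 hσ).2, hr₁, map_mul]
    ring
  intro σ hσ
  obtain ⟨A', hA'⟩ : ∃ A', A' = A.filter (fun τ => r₁ τ = r₁ σ) := ⟨_, rfl⟩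
  have h4 := s2 z₂ hz₂ Ω (A'.image r₂) (lt_of_le_of_lt Finset.card_image_le
    (lt_of_le_of_lt (Finset.card_le_card (by rw [hA']; exact Finset.filter_subset _ _)) hA))
    (fun ρ => ∑ τ ∈ A'.filter (fun τ => r₂ τ = ρ), c τ) (fun f₂ hf₂ => by
      have h5 := hC f₂ hf₂ (r₁ σ) (Finset.mem_image_of_mem r₁ hσ)
      rw [← hA', ← Finset.sum_fiberwise_of_maps_to (t := A'.image r₂) (g := r₂)
        (fun τ hτ => Finset.mem_image_of_mem r₂ hτ)] at h5
      rw [← h5]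
      refine Finset.sum_congr rfl fun ρ _ => ?_
      rw [Finset.sum_mul]
      refine Finset.sum_congr rfl fun τ hτ => ?_
      rw [← (Finset.mem_filter.1 hτ).2, hr₂]) (r₂ σ)
    (Finset.mem_image_of_mem r₂ (by rw [hA']; exact Finset.mem_filter.2 ⟨hσ, rfl⟩))
  have h6 : A'.filter (fun τ => r₂ τ = r₂ σ) = {σ} := by
    ext τ
    rw [Finset.mem_filter, Finset.mem_singleton, hA', Finset.mem_filter]
    constructor
    · rintro ⟨⟨-, h7⟩, h8⟩
      exact hinj _ _ h7 h8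
    · rintro rfl
      exact ⟨⟨hσ, rfl⟩, rfl⟩
  rw [h6, Finset.sum_singleton] at h4
  exact h4

end Pool.Agent.N162.GQ
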